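import Pool.Agent.H17.FCB.Mul

/-!
CLS: the class map exists.
-/

open AlgebraicGeometry CategoryTheory

namespace FCB

open FCB.Mul in
theorem cls (hF : S_HFAC) (hU : S_HUNI) (h1 : S_PD1) (h2 : S_PD2) (h3 : S_PD3) (h4 : S_PD4)
    (hR : S_PRE3) (hdiv : S_DIVH) (heff : S_EFFH) : S_CLS := by
  classical
  intro R ι C r _ _ _ _ _ _ D hD M
  choose P γ hP using h1 R ι C r D hD M
  have hDI := hdiv R ι C r D hD M P γ hP
  have hEF := heff R ι C r D hD M P γ hP
  obtain ⟨R1, R2⟩ := hR R ι C r D hD M.toPreModel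
  have hone : ∀ (p : PrimeDiv M.X) (π : R) (g : Fin r → ℤ), M.PrimeAt p π g →
      γ p = g ∧ Associated (P p) π := by
    intro p π g hp
    have hass : Associated (P p) π := ((h3 R ι C r D hD M p p _ _ _ _ (hP p) hp).1).1 rfl
    exact ⟨deg_assoc hF hU hD (hP p).2.1 hp.2.1 (hP p).1.ne_zero hass, hass⟩
  have hsingle : ∀ (p : PrimeDiv M.X) (π : R) (g : Fin r → ℤ), M.PrimeAt p π g →
      cl γ (Finsupp.single p 1) = g := by
    intro p π g hp
    rw [cl_single, one_smul]
    exact (hone p π g hp).1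
  refine ⟨⟨cl γ, hsingle, ?_, ?_, ?_, ?_⟩⟩
  · intro g
    obtain ⟨c⟩ := (inferInstance : Nonempty C)
    choose q hq using fun j : ι => h2 R ι C r D hD M (D.X j) (D.deg j) (hD.prime j) (D.X_mem j)
    refine ⟨∑ j, D.σ c g j • Finsupp.single (q j) 1, ?_⟩
    rw [map_sum]
    simp only [map_zsmul]
    have h : ∀ j, cl γ (Finsupp.single (q j) 1) = D.deg j := fun j => hsingle _ _ _ (hq j)
    simp only [h]
    exact hD.σ_wt c g
  · intro A B
    constructor
    · rintro ⟨f, hf0, hf⟩
      obtain ⟨g, a, b, ha, hb, ha0, hb0, hab⟩ := R1 f hf0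
      obtain ⟨Ea, -, ea1, ea2⟩ := hDI g a ha ha0
      obtain ⟨Eb, -, eb1, eb2⟩ := hDI g b hb hb0
      have hB : B = A + (Ea - Eb) := by
        ext p
        rw [hf p, h4 R ι C r D hD M p (P p) (γ p) g a b f (hP p) ha hb ha0 hb0 hab,
          Finsupp.add_apply, Finsupp.sub_apply, ea2 p, eb2 p]
      rw [hB, map_add, map_sub, cl_apply Ea, cl_apply Eb, ea1, eb1, sub_self, add_zero]
    · intro hAB
      set F : WeilDiv M.X := B - A with hFdef
      have hF0 : cl γ F = 0 := by rw [hFdef, map_sub, hAB, sub_self]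
      let Fp : WeilDiv M.X := F.mapRange (fun n => max n 0) (by simp)
      let Fm : WeilDiv M.X := F.mapRange (fun n => max (-n) 0) (by simp)
      have hpm : ∀ p, F p = Fp p - Fm p := by
        intro p
        simp only [Fp, Fm, Finsupp.mapRange_apply]
        omega
      have hp0 : 0 ≤ Fp := fun p => by
        simp only [Fp, Finsupp.mapRange_apply, Finsupp.coe_zero, Pi.zero_apply]
        exact le_max_right _ _
      have hm0 : 0 ≤ Fm := fun p => by
        simp only [Fm, Finsupp.mapRange_apply, Finsupp.coe_zero, Pi.zero_apply]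
        exact le_max_right _ _
      have hsub : F = Fp - Fm := by
        ext p
        rw [Finsupp.sub_apply]
        exact hpm p
      have hcl : cl γ Fp = cl γ Fm := by
        have h := hF0
        rw [hsub, map_sub, sub_eq_zero] at h
        exact h
      obtain ⟨a, ha, ha0, ha1⟩ := hEF Fp hp0
      obtain ⟨b, hb, hb0, hb1⟩ := hEF Fm hm0
      rw [← cl_apply] at ha hb
      rw [← hcl] at hb
      obtain ⟨f, hf0, hf⟩ := R2 (cl γ Fp) a b ha hb ha0 hb0
      refine ⟨f, hf0, fun p => ?_⟩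
      rw [h4 R ι C r D hD M p (P p) (γ p) (cl γ Fp) a b f (hP p) ha hb ha0 hb0 hf, ← ha1 p,
        ← hb1 p, ← hpm p, hFdef, Finsupp.sub_apply]
      ring
  · intro E hE
    obtain ⟨h, hg, h0, hm⟩ := hEF E hE
    refine ⟨h, hg, h0, fun p π g hp => ?_⟩
    rw [hm p, multiplicity_eq_of_associated_left (hone p π g hp).2]
  · intro g h hg h0
    obtain ⟨E, hE, he, hm⟩ := hDI g h hg h0
    refine ⟨E, hE, he, fun p π g hp => ?_⟩
    rw [hm p, multiplicity_eq_of_associated_left (hone p π g hp).2]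

end FCB
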