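import Pool.Agent.H17.FCB.Mul

/-!
DIVH: the divisor of a homogeneous element.
-/

open AlgebraicGeometry CategoryTheory

namespace FCB

namespace DIVH

open FCB.Mul

variable {R ι C : Type} {r : ℕ} [CommRing R] [IsDomain R] [UniqueFactorizationMonoid R]
  [Algebra ℂ R] [Fintype ι] {D : Cox R ι C r} {M : Model D} {P : PrimeDiv M.X → R}
  {γ : PrimeDiv M.X → (Fin r → ℤ)}

lemma key [Nonempty C] (hF : S_HFAC) (hU : S_HUNI) (h2 : S_PD2) (h3 : S_PD3) (hD : D.Laws)
    (hP : ∀ p, M.PrimeAt p (P p) (γ p)) (s : Multiset R)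
    (hs : ∀ π ∈ s, Prime π ∧ ∃ g, π ∈ D.gr g) :
    ∃ E : WeilDiv M.X, 0 ≤ E ∧ s.prod ∈ D.gr (cl γ E) ∧ s.prod ≠ 0 ∧
      ∀ p, E p = multiplicity (P p) s.prod := by
  classical
  induction s using Multiset.induction_on with
  | empty =>
    refine ⟨0, le_rfl, ?_, ?_, ?_⟩
    · rw [map_zero]
      simpa using D.one_mem
    · simp
    · intro p
      rw [Multiset.prod_zero, multiplicity_of_one_right (hP p).1.not_isUnit]
      simp
  | cons π s ih =>
    obtain ⟨E, hE0, hE1, hE2, hE3⟩ := ih fun π' h => hs π' (Multiset.mem_cons_of_mem h)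
    obtain ⟨hπ, g, hg⟩ := hs π (Multiset.mem_cons_self π s)
    obtain ⟨p₀, hp₀⟩ := h2 R ι C r D hD M π g hπ hg
    have hass : Associated (P p₀) π := ((h3 R ι C r D hD M p₀ p₀ _ _ _ _ (hP p₀) hp₀).1).1 rfl
    have hdeg : γ p₀ = g := deg_assoc hF hU hD (hP p₀).2.1 hg (hP p₀).1.ne_zero hass
    refine ⟨Finsupp.single p₀ 1 + E, ?_, ?_, ?_, ?_⟩
    · intro q
      have h1 : (0 : ℤ) ≤ E q := hE0 q
      by_cases h : p₀ = q
      · subst h
        simp only [Finsupp.coe_zero, Pi.zero_apply, Finsupp.add_apply, Finsupp.single_eq_same]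
        omega
      · simp only [Finsupp.coe_zero, Pi.zero_apply, Finsupp.add_apply,
          Finsupp.single_eq_of_ne (Ne.symm h), zero_add]
        exact h1
    · rw [map_add, cl_single, one_smul, Multiset.prod_cons, hdeg]
      exact D.mul_mem hg hE1
    · rw [Multiset.prod_cons]
      exact mul_ne_zero hπ.ne_zero hE2
    · intro q
      rw [Multiset.prod_cons, mult_mul (hP q).1 hπ.ne_zero hE2, Finsupp.add_apply, hE3 q,
        Nat.cast_add]
      congr 1
      by_cases h : p₀ = q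
      · subst h
        rw [Finsupp.single_eq_same, mult_self_assoc hass, Nat.cast_one]
      · have hna : ¬ Associated (P q) π := fun h' =>
          h (((h3 R ι C r D hD M q p₀ _ _ _ _ (hP q) hp₀).1).2 h').symm
        rw [Finsupp.single_eq_of_ne (Ne.symm h), mult_prime_ne (hP q).1 hπ hna, Nat.cast_zero]

end DIVH

open FCB.Mul in
theorem divh (hF : S_HFAC) (hH : S_HPRI) (hU : S_HUNI) (h2 : S_PD2) (h3 : S_PD3) : S_DIVH := by
  intro R ι C r _ _ _ _ _ _ D hD M P γ hP g h hg h0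
  obtain ⟨s, hs, hass⟩ := hH R ι C r D hD g h hg h0
  obtain ⟨E, hE0, hE1, hE2, hE3⟩ := DIVH.key hF hU h2 h3 hD hP s hs
  refine ⟨E, hE0, ?_, ?_⟩
  · rw [← cl_apply]
    exact deg_assoc hF hU hD hE1 hg hE2 hass
  · intro p
    rw [hE3 p, multiplicity_eq_of_associated_right hass]

end FCB
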