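import Pool.Agent.H17.FCB.Mul

/-!
EFFH: effective divisors are divisors of homogeneous elements.
-/

open AlgebraicGeometry CategoryTheory

namespace FCB

open FCB.Mul in
theorem effh (h3 : S_PD3) : S_EFFH := by
  classical
  intro R ι C r _ _ _ _ _ _ D hD M P γ hP E
  induction E using Finsupp.induction with
  | zero =>
    intro _
    refine ⟨1, ?_, one_ne_zero, ?_⟩
    · simpa using D.one_mem
    · intro p
      rw [multiplicity_of_one_right (hP p).1.not_isUnit]
      simp
  | single_add p₀ n f hp₀ hn ih =>
    intro hE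
    have hf0 : f p₀ = 0 := Finsupp.notMem_support_iff.1 hp₀
    have hf : 0 ≤ f := by
      intro q
      by_cases h : q = p₀
      · rw [h, hf0]
        exact le_rfl
      · have h1 : (0 : ℤ) ≤ (Finsupp.single p₀ n + f) q := hE q
        rw [Finsupp.add_apply, Finsupp.single_eq_of_ne h, zero_add] at h1
        exact h1
    have hn0 : 0 ≤ n := by
      have h1 : (0 : ℤ) ≤ (Finsupp.single p₀ n + f) p₀ := hE p₀
      rw [Finsupp.add_apply, Finsupp.single_eq_same, hf0, add_zero] at h1
      exact h1
    obtain ⟨k, rfl⟩ := Int.eq_ofNat_of_zero_le hn0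
    obtain ⟨h, hg, h0, hm⟩ := ih hf
    have hpk : P p₀ ^ k ≠ 0 := pow_ne_zero _ (hP p₀).1.ne_zero
    refine ⟨P p₀ ^ k * h, ?_, mul_ne_zero hpk h0, ?_⟩
    · rw [← cl_apply (γ := γ), map_add, cl_single, cl_apply]
      have h1 := D.pow_mem (hP p₀).2.1 k
      rw [← natCast_zsmul] at h1
      exact D.mul_mem h1 hg
    · intro q
      have hpow : ∀ m : ℕ, multiplicity (P q) (P p₀ ^ m) = m * multiplicity (P q) (P p₀) := by
        intro m
        induction m with
        | zero => rw [pow_zero, multiplicity_of_one_right (hP q).1.not_isUnit, zero_mul]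
        | succ m ihm =>
          rw [pow_succ, mult_mul (hP q).1 (pow_ne_zero _ (hP p₀).1.ne_zero) (hP p₀).1.ne_zero,
            ihm]
          ring
      rw [mult_mul (hP q).1 hpk h0, Finsupp.add_apply, hm q, Nat.cast_add, hpow]
      congr 1
      by_cases hq : q = p₀
      · subst hq
        rw [Finsupp.single_eq_same, multiplicity_self, mul_one]
      · have hna : ¬ Associated (P q) (P p₀) := fun h' =>
          hq (((h3 R ι C r D hD M q p₀ _ _ _ _ (hP q) (hP p₀)).1).2 h')
        rw [Finsupp.single_eq_of_ne hq, mult_prime_ne (hP q).1 (hP p₀).1 hna, mul_zero,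
          Nat.cast_zero]

end FCB
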