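import Pool.Agent.H30.FCB.StE
import Pool.Agent.H30.FCB.Basic

/-!
Lemmas on multiplicities and degrees (used in DIVH, EFFH, CLS).
-/

open AlgebraicGeometry CategoryTheory

namespace FCB.Mul

variable {R ι C : Type} {r : ℕ} [CommRing R] [IsDomain R] [UniqueFactorizationMonoid R]
  [Algebra ℂ R] [Fintype ι] {D : Cox R ι C r}

omit [Algebra ℂ R] [IsDomain R] in
lemma mult_mul {p a b : R} (hp : Prime p) (ha : a ≠ 0) (hb : b ≠ 0) [IsDomain R] :
    multiplicity p (a * b) = multiplicity p a + multiplicity p b :=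
  multiplicity_mul hp (FiniteMultiplicity.of_prime_left hp (mul_ne_zero ha hb))

omit [Algebra ℂ R] [UniqueFactorizationMonoid R] in
lemma mult_prime_ne {p q : R} (hp : Prime p) (hq : Prime q) (h : ¬ Associated p q) :
    multiplicity p q = 0 := by
  rw [multiplicity_eq_zero]
  intro hd
  exact h ((hp.dvd_prime_iff_associated hq).1 hd)

omit [Algebra ℂ R] [UniqueFactorizationMonoid R] in
lemma mult_self_assoc {p q : R} (h : Associated p q) : multiplicity p q = 1 := by
  rw [← multiplicity_eq_of_associated_right h, multiplicity_self]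

omit [UniqueFactorizationMonoid R] in
/-- associated homogeneous elements have the same degree -/
lemma deg_assoc (hF : S_HFAC) (hU : S_HUNI) (hD : D.Laws) {g g' : Fin r → ℤ} {a b : R}
    (ha : a ∈ D.gr g) (hb : b ∈ D.gr g') (ha0 : a ≠ 0) (h : Associated a b) : g = g' := by
  obtain ⟨u, hu⟩ := h
  have hb0 : a * (u : R) ≠ 0 := mul_ne_zero ha0 u.ne_zero
  have hb' : a * (u : R) ∈ D.gr g' := by rw [hu]; exact hb
  obtain ⟨g₁, g₂, h1, h2⟩ := hF R ι C r D hD g' a u hb' hb0
  obtain ⟨U1, -, U3⟩ := hU R ι C r D hD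
  have e1 : g₂ = 0 := U1 _ _ h2 u.isUnit
  have e2 : g₁ = g := U3 _ _ _ h1 ha ha0
  have e3 : a * (u : R) ∈ D.gr (g₁ + g₂) := D.mul_mem h1 h2
  have e4 := U3 _ _ _ e3 hb' hb0
  rw [← e4, e1, e2, add_zero]

variable {M : Model D} {P : PrimeDiv M.X → R} {γ : PrimeDiv M.X → (Fin r → ℤ)}

/-- the degree of a divisor -/
noncomputable def cl (γ : PrimeDiv M.X → (Fin r → ℤ)) : WeilDiv M.X →+ (Fin r → ℤ) :=
  Finsupp.liftAddHom fun p => (zmultiplesHom (Fin r → ℤ)) (γ p)

omit [UniqueFactorizationMonoid R] in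
lemma cl_apply (E : WeilDiv M.X) : cl γ E = E.sum fun p n => n • γ p := rfl

omit [UniqueFactorizationMonoid R] in
lemma cl_single (p : PrimeDiv M.X) (n : ℤ) : cl γ (Finsupp.single p n) = n • γ p := by
  rw [cl, Finsupp.liftAddHom_apply_single]
  rfl

end FCB.Mul
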